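import Pool.Agent.N661.BH.Fin2

/-!
# Pairs of directions in the Benjamini-Schramm limits of eigenfunctions (MP_4fa179_mp)

The setting is that of the file `ErgodicLimits` of MP_4fa179_mp: eigenfunctions on a hyperbolic
surface of finite area, with the definitions of `Pool.Agent.N661.BH.Stm` and
`Pool.Agent.N661.BR.Defs`. Here `μ` is an arbitrary Benjamini-Schramm limit of a quantum ergodic
sequence: loss of mass in the limit and plane waves are allowed. Let `μ = ∫ κ_s dP(s)` be a
decomposition of `μ` into translation invariant ergodic laws, and let `m_s cov ν_s` be the covariance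
of `κ_s`: `m_s` is the local mass, and the probability measure `ν_s` is the law of the direction of the
momentum, at the scale of the wavelength.

The theorem says: (1) the fourth moments of almost every component are finite, and equal to
`m_s² (3 - (3/2) parallel ν_s)`; (2) the law of the difference modulo `π` of two independent
directions of law `ν_s`, averaged over `s` with the weight `m_s²`, is at most the uniform measure away
from the difference `0`. In particular, for every angle `γ` which is not a multiple of `π`, almost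
surely the component contains no two plane waves which form the angle `γ`; and
`∫ m_s² (1 - parallel ν_s) dP ≤ 1`.

The theorem is the counterpart of the file `DirectionPairs` of MP_6b977f_mp for hyperbolic surfaces;
the proof is explained there. The parts of the proof are due to helpers 87, 130, 136, 141, 163, 232,
273, 278, 344, 426, 507, 511, 645, 661, 717, 738, 814, 868, 901, 916 and 953.
-/

set_option autoImplicit false
open MeasureTheory Filter Topology ProbabilityTheory
open scoped ContDiff ENNReal

namespace Pool.Agent.Results.MP_4fa179_mp.DirectionPairs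

open Pool.Agent.W745.RW (lap)
open Pool.Agent.N661.BR (MW IsStationary IsErgodic cov parallel)
open Pool.Agent.N661.BH (HP IsQuantumErgodic IsLocalLimit)

/-- **Result.** Let `Ω ⊆ HP` be a nonempty open set of finite hyperbolic area and let `u n` be real
eigenfunctions of the hyperbolic Laplacian, `y² Δu + λ_n u = 0` on `HP`, `λ_n → ∞`, which are quantum
ergodic in the unit cotangent bundle over `Ω`. Let `μ` be a limit point of their local laws, in
random frames at random points of `Ω`, and let `μ = ∫ κ_s dP(s)`, where almost every `κ_s` is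
translation invariant and ergodic with covariance `m_s cov ν_s (w - w')`. Then
`E f(0)⁴ = m_s² (3 - (3/2) parallel ν_s) < ∞` for almost every component, and for every measurable set
`B ⊆ (0, π)` of angles the average over `s` of
`m_s² (ν_s × ν_s) {α - β ∈ B mod π}` is at most `|B| / π`. -/
theorem result (Ω : Set ℂ) (hΩ : IsOpen Ω) (hHP : Ω ⊆ HP) (hne : Ω.Nonempty)
    (hA : IntegrableOn (fun z : ℂ => 1 / z.im ^ 2) Ω)
    (lam : ℕ → ℝ) (hpos : ∀ n, 0 < lam n) (hlam : Tendsto lam atTop atTop)
    (u : ℕ → ℂ → ℝ) (hu : ∀ n, ContDiffOn ℝ ∞ (u n) HP)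
    (heq : ∀ n, ∀ z ∈ HP, z.im ^ 2 * lap (u n) z + lam n * u n z = 0)
    (hqe : IsQuantumErgodic Ω lam u)
    (μ : Measure MW) [IsProbabilityMeasure μ] (hμ : IsLocalLimit Ω lam u μ)
    {S : Type*} [MeasurableSpace S] (P : Measure S) [IsProbabilityMeasure P]
    (κ : Kernel S MW) [IsMarkovKernel κ] (hκ : P.bind κ = μ)
    (herg : ∀ᵐ s ∂P, IsStationary (κ s) ∧ IsErgodic (κ s))
    (m : S → ℝ) (ν : Kernel S ℝ) [IsMarkovKernel ν]
    (hν : ∀ᵐ s ∂P, ∀ w w' : ℂ, ∫ f : MW, f w * f w' ∂(κ s) = m s * cov (ν s) (w - w')) :
    (∀ᵐ s ∂P, Integrable (fun f : MW => f 0 ^ 4) (κ s) ∧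
      ∫ f : MW, f 0 ^ 4 ∂(κ s) = m s ^ 2 * (3 - 3 / 2 * parallel (ν s))) ∧
    ∀ B : Set ℝ, MeasurableSet B → B ⊆ Set.Ioo 0 Real.pi →
      ∫⁻ s, ENNReal.ofReal (m s ^ 2) *
          ((ν s).prod (ν s)) {p | ∃ k : ℤ, p.1 - p.2 + k * Real.pi ∈ B} ∂P ≤
        ENNReal.ofReal (1 / Real.pi) * volume B := by
  obtain ⟨h1, h2, _⟩ := Pool.Agent.N661.BH.limit_all hΩ hHP hne hA hpos hlam hu heq hqe
    inferInstance hμ
  exact ⟨Pool.Agent.N661.BR.comp4 h1 h2 hκ m ν herg hν,
    fun B hB hB' => Pool.Agent.N661.BR.pairs' h1 h2 hκ m ν herg hν B hB hB'⟩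

end Pool.Agent.Results.MP_4fa179_mp.DirectionPairs
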