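import Pool.Agent.N661.BH.Fin

/-!
# Infinitely divisible Benjamini-Schramm limits on hyperbolic surfaces (MP_4fa179_mp)

The setting is that of the file `ErgodicLimits`. The theorem characterises the isotropic
monochromatic Gaussian wave `F_{unif,1}` among the possible Benjamini-Schramm limits: along a quantum
ergodic sequence of eigenfunctions of a hyperbolic surface of finite area it is the only limit point,
of variance one, which is a mixture of Gaussian laws, or of ergodic infinitely divisible laws, that
contain no plane waves.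

The parts of the proof are due to helpers 87, 136, 163, 273, 278, 426, 507, 511, 645, 661, 717, 738,
814, 868, 901 and 916.
-/

set_option autoImplicit false
open MeasureTheory Filter Topology ProbabilityTheory
open scoped ContDiff

namespace Pool.Agent.Results.MP_4fa179_mp.DivisibleLimits

open Pool.Agent.W745.RW (lap)
open Pool.Agent.N661.BR (MW IsStationary IsErgodic IsGaussianLaw IsInfinitelyDivisible IsRandomWave
  cov parallel)
open Pool.Agent.N661.BH (HP IsQuantumErgodic IsLocalLimit)

/-- **Result.** Let `Ω ⊆ HP` be a nonempty open set of finite hyperbolic area and let `u n` be real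
eigenfunctions of the hyperbolic Laplacian, `y² Δu + λ_n u = 0` on `HP`, `λ_n → ∞`, which are quantum
ergodic in the unit cotangent bundle over `Ω`. Let `μ` be a limit point of their local laws, in
random frames at random points of `Ω`, with `∫ f(0)² dμ = 1`, and let `μ = ∫ κ_s dP(s)`, where almost
every `κ_s` has the covariance `m_s cov ν_s (w - w')` for a probability measure `ν_s` without atoms
modulo `π`, and is either a centred Gaussian law, or translation invariant, ergodic and infinitely
divisible. Then `μ` is the law of the random wave `F_{unif,1}`. -/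
theorem result (Ω : Set ℂ) (hΩ : IsOpen Ω) (hHP : Ω ⊆ HP) (hne : Ω.Nonempty)
    (hA : IntegrableOn (fun z : ℂ => 1 / z.im ^ 2) Ω)
    (lam : ℕ → ℝ) (hpos : ∀ n, 0 < lam n) (hlam : Tendsto lam atTop atTop)
    (u : ℕ → ℂ → ℝ) (hu : ∀ n, ContDiffOn ℝ ∞ (u n) HP)
    (heq : ∀ n, ∀ z ∈ HP, z.im ^ 2 * lap (u n) z + lam n * u n z = 0)
    (hqe : IsQuantumErgodic Ω lam u)
    (μ : Measure MW) [IsProbabilityMeasure μ] (hμ : IsLocalLimit Ω lam u μ)
    (hvar : ∫ f : MW, f 0 ^ 2 ∂μ = 1)
    {S : Type*} [MeasurableSpace S] (P : Measure S) [IsProbabilityMeasure P]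
    (κ : Kernel S MW) [IsMarkovKernel κ] (hκ : P.bind κ = μ)
    (hdiv : ∀ᵐ s ∂P, (IsStationary (κ s) ∧ IsErgodic (κ s) ∧ IsInfinitelyDivisible (κ s)) ∨
      IsGaussianLaw (κ s))
    (m : S → ℝ) (ν : S → Measure ℝ)
    (hν : ∀ᵐ s ∂P, IsProbabilityMeasure (ν s) ∧ parallel (ν s) = 0 ∧
      ∀ w w' : ℂ, ∫ f : MW, f w * f w' ∂(κ s) = m s * cov (ν s) (w - w')) :
    IsRandomWave μ := by
  have hQ := Pool.Agent.N661.BH.allASM Ω hΩ hHP hne hA lam hpos hlam u hu heq hqe μ inferInstance hμ
  exact Pool.Agent.N661.BR.divisible_case Pool.Agent.N661.BR.allParts hQ hvar hκ m ν hν hdiv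

end Pool.Agent.Results.MP_4fa179_mp.DivisibleLimits
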