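import Pool.Agent.N661.BH.Fin2
import Pool.Agent.N661.BR.Fin4
import Pool.Agent.N40.BRSTATH
import Pool.Agent.N878.BRBOCH

/-!
# Ergodic components of Benjamini-Schramm limits of eigenfunctions (MP_4fa179_mp)

The setting is that of the file `ErgodicLimits` of MP_4fa179_mp: eigenfunctions on a hyperbolic
surface of finite area, with the definitions of `Pool.Agent.N661.BH.Stm` and
`Pool.Agent.N661.BR.Defs`. The theorem concerns the Benjamini-Schramm limits `μ` of a quantum ergodic
sequence. They are stationary. If `μ` is a countable mixture of stationary ergodic laws (for instance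
if `μ` itself is ergodic), then all of these components are Gaussian to fourth order: they are
centred, with finite fourth moments, vanishing three point functions, and the four point functions of
the Gaussian wave with the same covariance. The components which are infinitely divisible are Gaussian. In contrast
with `ErgodicLimits` nothing is assumed on plane waves, and mass may be lost in the limit. If no mass
is lost, then all components have the covariance `J_0 (|w - w'|)`.

Proof idea. The second moments of the finite linear combinations of values under `μ` are at most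
those of the random wave by Fatou's lemma. Hence the spectral measures of the components (which
exist by the theorem of Bochner) are dominated by a multiple of the uniform measure, so they have no
atoms, and the theory of `ErgodicLimits` applies.

The parts of the proof are due to helpers 40, 87, 130, 136, 141, 163, 232, 273, 278, 344, 426, 507,
511, 645, 661, 717, 738, 814, 868, 878, 901, 916 and 953.
-/

set_option autoImplicit false
open MeasureTheory Filter Topology ProbabilityTheory
open scoped ContDiff ENNReal

namespace Pool.Agent.Results.MP_4fa179_mp.ErgodicLimitPoints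

open Pool.Agent.W745.RW (lap)
open Pool.Agent.N661.BR (MW IsStationary IsErgodic IsInfinitelyDivisible IsGaussianLaw
  IsRandomWave Gau4 J0)
open Pool.Agent.N661.BH (HP IsQuantumErgodic IsLocalLimit)

/-- **Result.** Let `Ω ⊆ HP` be a nonempty open set of finite hyperbolic area and let `u n` be real
eigenfunctions of the hyperbolic Laplacian, `y² Δu + λ_n u = 0` on `HP`, `λ_n → ∞`, which are quantum
ergodic in the unit cotangent bundle over `Ω`. Let `μ` be a limit point of their local laws, in
random frames at random points of `Ω`. Then `μ` is stationary. Let `μ = ∑ p n • ρ n` with stationary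
ergodic laws `ρ n` (for `p n ≠ 0`). Then each of them is `Gau4`: it is centred, has finite fourth
moments, its three point functions vanish, and its four point functions are those of the Gaussian
wave with the same covariance. If
`ρ n` is infinitely divisible, it is Gaussian. If `∫ f(0)² dμ = 1`, then the covariance of each
`ρ n` is `J_0 (|w - w'|)`, and `μ` is the law of `F_{unif,1}` if all `ρ n` are infinitely
divisible. -/
theorem result (Ω : Set ℂ) (hΩ : IsOpen Ω) (hHP : Ω ⊆ HP) (hne : Ω.Nonempty)
    (hA : IntegrableOn (fun z : ℂ => 1 / z.im ^ 2) Ω)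
    (lam : ℕ → ℝ) (hpos : ∀ n, 0 < lam n) (hlam : Tendsto lam atTop atTop)
    (u : ℕ → ℂ → ℝ) (hu : ∀ n, ContDiffOn ℝ ∞ (u n) HP)
    (heq : ∀ n, ∀ z ∈ HP, z.im ^ 2 * lap (u n) z + lam n * u n z = 0)
    (hqe : IsQuantumErgodic Ω lam u)
    (μ : Measure MW) [IsProbabilityMeasure μ] (hμ : IsLocalLimit Ω lam u μ) :
    IsStationary μ ∧
    ∀ (p : ℕ → ℝ≥0∞) (ρ : ℕ → Measure MW), μ = Measure.sum (fun n => p n • ρ n) →
      (∀ n, p n ≠ 0 → IsProbabilityMeasure (ρ n) ∧ IsStationary (ρ n) ∧ IsErgodic (ρ n)) →
      (∀ n, p n ≠ 0 → Gau4 (ρ n) ∧ (IsInfinitelyDivisible (ρ n) → IsGaussianLaw (ρ n)) ∧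
        (∫ f : MW, f 0 ^ 2 ∂μ = 1 → ∀ w w' : ℂ, ∫ f : MW, f w * f w' ∂(ρ n) = J0 ‖w - w'‖)) ∧
      (∫ f : MW, f 0 ^ 2 ∂μ = 1 → (∀ n, p n ≠ 0 → IsInfinitelyDivisible (ρ n)) →
        IsRandomWave μ) := by
  obtain ⟨h1, h2, h3⟩ := Pool.Agent.N661.BH.limit_all hΩ hHP hne hA hpos hlam hu heq hqe
    inferInstance hμ
  exact ⟨Pool.Agent.N40.BRSTATH.STATH Ω hΩ hHP hne hA lam hpos hlam u hu heq hqe μ inferInstance hμ,
    fun p ρ hsum hρ =>
      Pool.Agent.N661.BR.every_sum Pool.Agent.N878.BR.BOCH h1 h2 h3 p ρ hsum hρ⟩

end Pool.Agent.Results.MP_4fa179_mp.ErgodicLimitPoints
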