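import Pool.Agent.N661.BH.Fin
import Pool.Agent.N661.BR.Fin5

/-!
# Benjamini-Schramm limits of quantum ergodic eigenfunctions of hyperbolic surfaces (MP_4fa179_mp)

The hyperbolic plane is the half plane `HP = {im z > 0}` with the metric `|dz|² / (im z)²`. A
hyperbolic surface of finite area `M = Γ \ HP` is represented by an open fundamental domain
`Ω ⊆ HP`, and functions on `M` by functions on `HP`. Quantum ergodicity is assumed in the unit
cotangent bundle over `Ω`.

In the metric multiplied by `λ`, the function `w ↦ u (z + (im z) w / √λ)` describes `u` near `z`,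
in coordinates in which the rescaled metric is Euclidean up to errors `O(λ^{-1/2})` on compact
sets. `IsLocalLimit Ω lam u μ` (in `Pool.Agent.N661.BH.Stm`) says that along a subsequence the
finite dimensional distributions of this function, for a random point `z` of `Ω` and a random
orthonormal frame at `z` (the mean over all rotations and reflections of the points `w j`), converge
to those of the law `μ` on the space `MW` of the smooth real functions on the plane with `Δf + f = 0`:
the sequence `(M_{√λ_n}, u_n)` converges, along the subsequence, to the random field with the law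
`μ` in the sense of Benjamini and Schramm. The laws on `MW` are as in `Pool.Agent.N661.BR.Defs`.

The theorem is the counterpart of the file `ErgodicLimits` of MP_6b977f_mp for hyperbolic surfaces;
the proof is explained there. The quartic quantities converge by the theorem of
`HyperbolicFourthMoments`; the second moments of the displaced derivatives are computed by a Taylor
expansion in `L²`.

The parts of the proof are due to helpers 87, 136, 163, 273, 278, 426, 507, 511, 645, 661, 717, 738,
814, 868, 878, 901 and 916.
-/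

set_option autoImplicit false
open MeasureTheory Filter Topology ProbabilityTheory
open scoped ContDiff

namespace Pool.Agent.Results.MP_4fa179_mp.ErgodicLimits

open Pool.Agent.W745.RW (lap)
open Pool.Agent.N661.BR (MW IsStationary IsErgodic J0 cov parallel)
open Pool.Agent.N661.BH (HP IsQuantumErgodic IsLocalLimit)

/-- **Result.** Let `Ω ⊆ HP` be a nonempty open set of finite hyperbolic area and let `u n` be real
eigenfunctions of the hyperbolic Laplacian, `y² Δu + λ_n u = 0` on `HP`, `λ_n → ∞`, which are quantum
ergodic in the unit cotangent bundle over `Ω`. Let `μ` be a limit point of their local laws, in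
random frames at random points of `Ω`, with `∫ f(0)² dμ = 1`, and let `μ = ∫ κ_s dP(s)`, where almost
every `κ_s` is translation invariant and ergodic, with covariance `m_s cov ν_s (w - w')` for a
probability measure `ν_s` without atoms modulo `π`. Then, for almost every `s`, `κ_s` is centred with
covariance `J_0 (|w - w'|)`, its fourth moments are finite, its three point functions vanish, and its
four point functions are those of the random wave `F_{unif,1}`. -/
theorem result (Ω : Set ℂ) (hΩ : IsOpen Ω) (hHP : Ω ⊆ HP) (hne : Ω.Nonempty)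
    (hA : IntegrableOn (fun z : ℂ => 1 / z.im ^ 2) Ω)
    (lam : ℕ → ℝ) (hpos : ∀ n, 0 < lam n) (hlam : Tendsto lam atTop atTop)
    (u : ℕ → ℂ → ℝ) (hu : ∀ n, ContDiffOn ℝ ∞ (u n) HP)
    (heq : ∀ n, ∀ z ∈ HP, z.im ^ 2 * lap (u n) z + lam n * u n z = 0)
    (hqe : IsQuantumErgodic Ω lam u)
    (μ : Measure MW) [IsProbabilityMeasure μ] (hμ : IsLocalLimit Ω lam u μ)
    (hvar : ∫ f : MW, f 0 ^ 2 ∂μ = 1)
    {S : Type*} [MeasurableSpace S] (P : Measure S) [IsProbabilityMeasure P]
    (κ : Kernel S MW) [IsMarkovKernel κ] (hκ : P.bind κ = μ)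
    (herg : ∀ᵐ s ∂P, IsStationary (κ s) ∧ IsErgodic (κ s))
    (m : S → ℝ) (ν : S → Measure ℝ)
    (hν : ∀ᵐ s ∂P, IsProbabilityMeasure (ν s) ∧ parallel (ν s) = 0 ∧
      ∀ w w' : ℂ, ∫ f : MW, f w * f w' ∂(κ s) = m s * cov (ν s) (w - w')) :
    ∀ᵐ s ∂P, (∀ w : ℂ, ∫ f : MW, f w ∂(κ s) = 0) ∧
      (∀ w w' : ℂ, ∫ f : MW, f w * f w' ∂(κ s) = J0 ‖w - w'‖) ∧
      (∀ w : ℂ, Integrable (fun f : MW => f w ^ 4) (κ s)) ∧
      (∀ a b c : ℂ, ∫ f : MW, f a * f b * f c ∂(κ s) = 0) ∧
      ∀ a b c d : ℂ, ∫ f : MW, f a * f b * f c * f d ∂(κ s) =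
        J0 ‖a - b‖ * J0 ‖c - d‖ + J0 ‖a - c‖ * J0 ‖b - d‖ + J0 ‖a - d‖ * J0 ‖b - c‖ := by
  have hQ := Pool.Agent.N661.BH.allASM Ω hΩ hHP hne hA lam hpos hlam u hu heq hqe μ inferInstance hμ
  filter_upwards [Pool.Agent.N661.BR.ergodic_case3 hQ hvar hκ m ν hν herg] with s hs
  exact ⟨hs.2.1, hs.1.two, hs.1.fin, hs.2.2, hs.1.four⟩

end Pool.Agent.Results.MP_4fa179_mp.ErgodicLimits
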